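import Pool.Agent.helper20.SOL.Spec

/-!
# Project sol (MP_cad530_co), row PR4
-/

set_option autoImplicit false

namespace Pool.Agent.SOL

open Pool.Agent.helper54.SOG Finset

open scoped BigOperators

theorem PR4_perm {n t s : ℕ} (p q : Fin n) (y y' : Vec n)
    (h : ∀ i, |y' i| = |y (Equiv.swap p q i)|) (hy : y ∈ TD n t s) : y' ∈ TD n t s := by
  have hc : ∀ a, cnt y' a = cnt y a := by
    intro a
    unfold cnt
    refine Finset.card_bij (fun i _ => Equiv.swap p q i) ?_ ?_ ?_
    · intro i hi
      simp only [mem_filter, mem_univ, true_and] at hi ⊢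
      rw [← h i]
      exact hi
    · intro i _ j _ hij
      exact (Equiv.swap p q).injective hij
    · intro j hj
      refine ⟨Equiv.swap p q j, ?_, Equiv.swap_apply_self p q j⟩
      simp only [mem_filter, mem_univ, true_and] at hj ⊢
      rw [h, Equiv.swap_apply_self p q j]
      exact hj
  exact ⟨fun i => by rw [h i]; exact hy.1 _, by rw [hc]; exact hy.2.1, by rw [hc]; exact hy.2.2⟩

theorem PR4_sum2 {n : ℕ} (p q : Fin n) (hpq : p ≠ q) (y y' : Vec n) (w : Fin n → ℝ)
    (h : ∀ i, i ≠ p → i ≠ q → y' i = y i) :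
    ∑ i, (y i : ℝ) * w i - ∑ i, (y' i : ℝ) * w i =
      ((y p : ℝ) - y' p) * w p + ((y q : ℝ) - y' q) * w q := by
  rw [← Finset.sum_sub_distrib, ← Finset.sum_subset (Finset.subset_univ {p, q})]
  · rw [Finset.sum_pair hpq]
    ring
  · intro i _ hi
    simp only [mem_insert, mem_singleton, not_or] at hi
    rw [h i hi.1 hi.2]
    ring

theorem PR4_sum1 {n : ℕ} (z : Fin n) (y y' : Vec n) (w : Fin n → ℝ)
    (h : ∀ i, i ≠ z → y' i = y i) :
    ∑ i, (y i : ℝ) * w i - ∑ i, (y' i : ℝ) * w i = ((y z : ℝ) - y' z) * w z := by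
  rw [← Finset.sum_sub_distrib, Finset.sum_eq_single z]
  · ring
  · intro i _ hi
    rw [h i hi]
    ring
  · intro hz
    exact absurd (Finset.mem_univ z) hz

theorem PR4_sg2 (z : ℤ) (h : |z| = 2) : sg z * 2 = z := by
  rcases abs_eq (by norm_num) |>.1 h with rfl | rfl <;> simp [sg]

theorem PR4_sg1 (z : ℤ) (h : |z| = 1) : sg z * 2 = 2 * z := by
  rcases abs_eq (by norm_num) |>.1 h with rfl | rfl <;> simp [sg]

/-- the linear form on an admissible `y` -/
theorem PR4_key {n r : ℕ} (x y : Vec n) (w : Fin n → ℝ) (α β : ℝ) (hr : 1 ≤ r)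
    (hx : x ∈ TD n (2 * r - 1) 4) (hy : y ∈ TD n (2 * r) 0) (hxy : x - y ∈ TD n (2 * r - 1) 4)
    (h2 : ∀ i, |x i| = 2 → (x i : ℝ) * w i = α) (h1 : ∀ i, |x i| = 1 → (x i : ℝ) * w i = β)
    (h0 : ∀ i, x i = 0 → w i = 0) :
    ∃ a : ℕ, 2 * a + (univ.filter fun i => |x i| = 1 ∧ y i ≠ 0).card = 2 * r ∧
      ∑ i, (y i : ℝ) * w i =
        a * α + 2 * ((univ.filter fun i => |x i| = 1 ∧ y i ≠ 0).card : ℝ) * β := by
  have hy1 : ∀ i, |y i| ≠ 1 := by
    intro i hi
    have h3 : cnt y 1 = 0 := hy.2.2
    unfold cnt at h3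
    rw [Finset.card_eq_zero, Finset.filter_eq_empty_iff] at h3
    exact h3 (Finset.mem_univ i) hi
  have hxb : ∀ i, |x i| ≤ 2 := hx.1
  have hyb : ∀ i, |y i| ≤ 2 := hy.1
  have hzb : ∀ i, |x i - y i| ≤ 2 := fun i => hxy.1 i
  set A := (univ.filter fun i => |x i| = 2 ∧ y i ≠ 0).card with hA
  set B := (univ.filter fun i => |x i| = 1 ∧ y i ≠ 0).card with hB
  set C := (univ.filter fun i => |x i| = 0 ∧ y i ≠ 0).card with hC
  have e1 : cnt y 2 = A + B + C := by
    unfold cnt
    rw [hA, hB, hC, Finset.card_filter, Finset.card_filter, Finset.card_filter,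
      Finset.card_filter, ← Finset.sum_add_distrib, ← Finset.sum_add_distrib]
    refine Finset.sum_congr rfl fun i _ => ?_
    have a1 := hy1 i
    have a2 := hxb i
    have a3 := hyb i
    rw [abs_le] at a2 a3
    obtain ⟨a2, a2'⟩ := a2
    obtain ⟨a3, a3'⟩ := a3
    generalize x i = u at *
    generalize y i = v at *
    interval_cases u <;> interval_cases v <;> simp_all (decide := true)
  have e2 : cnt (x - y) 2 + A = cnt x 2 + C := by
    unfold cnt
    rw [hA, hC, Finset.card_filter, Finset.card_filter, Finset.card_filter,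
      Finset.card_filter, ← Finset.sum_add_distrib, ← Finset.sum_add_distrib]
    refine Finset.sum_congr rfl fun i _ => ?_
    have a1 := hy1 i
    have a2 := hxb i
    have a3 := hyb i
    have a4 := hzb i
    rw [Pi.sub_apply]
    rw [abs_le] at a2 a3
    obtain ⟨a2, a2'⟩ := a2
    obtain ⟨a3, a3'⟩ := a3
    generalize x i = u at *
    generalize y i = v at *
    interval_cases u <;> interval_cases v <;> simp_all (decide := true)
  have e3 : cnt y 2 = 2 * r := hy.2.1
  have e4 : cnt (x - y) 2 = 2 * r - 1 := hxy.2.1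
  have e5 : cnt x 2 = 2 * r - 1 := hx.2.1
  refine ⟨A, by omega, ?_⟩
  have e6 : ∀ i, (y i : ℝ) * w i = (if |x i| = 2 ∧ y i ≠ 0 then α else 0) +
      (if |x i| = 1 ∧ y i ≠ 0 then 2 * β else 0) := by
    intro i
    have a1 := hy1 i
    have a2 := hxb i
    have a3 := hyb i
    have a4 := hzb i
    have b2 := h2 i
    have b1 := h1 i
    have b0 := h0 i
    by_cases hyi : y i = 0
    · rw [if_neg (fun h => h.2 hyi), if_neg (fun h => h.2 hyi), hyi]
      simp
    · by_cases c2 : |x i| = 2
      · rw [if_pos ⟨c2, hyi⟩, if_neg (fun h => by rw [c2] at h; norm_num at h), ← b2 c2, add_zero]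
        have : y i = x i := by
          rw [abs_le] at a2 a3
          obtain ⟨a2, a2'⟩ := a2
          obtain ⟨a3, a3'⟩ := a3
          generalize x i = u at *
          generalize y i = v at *
          interval_cases u <;> interval_cases v <;> simp_all (decide := true)
        rw [this]
      · by_cases c1 : |x i| = 1
        · rw [if_neg (fun h => c2 h.1), if_pos ⟨c1, hyi⟩, ← b1 c1, zero_add]
          have : y i = 2 * x i := by
            rw [abs_le] at a2 a3
            obtain ⟨a2, a2'⟩ := a2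
            obtain ⟨a3, a3'⟩ := a3
            generalize x i = u at *
            generalize y i = v at *
            interval_cases u <;> interval_cases v <;> simp_all (decide := true)
          rw [this]
          push_cast
          ring
        · have c0 : x i = 0 := by
            have := abs_nonneg (x i)
            have : |x i| = 0 := by omega
            exact abs_eq_zero.1 this
          rw [if_neg (fun h => c2 h.1), if_neg (fun h => c1 h.1), b0 c0]
          ring
  rw [Finset.sum_congr rfl fun i _ => e6 i, Finset.sum_add_distrib, ← Finset.sum_filter,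
    ← Finset.sum_filter, Finset.sum_const, Finset.sum_const, nsmul_eq_mul, nsmul_eq_mul, ← hA, ← hB]
  ring

theorem PR4 (hCNT : CNT_stmt) (hPAT : PAT_stmt) : PR4_stmt := by
  intro n r x w K hr hn hx hK
  obtain ⟨c1, -, c3, c4, -, -, -, -⟩ := hCNT
  obtain ⟨P3, P2, P1⟩ := hPAT
  have hx2 : cnt x 2 = 2 * r - 1 := hx.2.1
  have hx1 : cnt x 1 = 4 := hx.2.2
  have hx0 : cnt x 0 = n - 2 * r - 3 := by
    have := c1 n x hx.1
    omega
  have hV : ∀ z : Vec n, z ∈ TD n (2 * r - 1) 4 → z ∈ VD n (4 * r) := fun z hz =>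
    c3 n (4 * r) (2 * r - 1) 4 z (by omega) (by omega) hz
  have hK' : ∀ y ∈ TD n (2 * r) 0, x - y ∈ TD n (2 * r - 1) 4 → ∑ i, (y i : ℝ) * w i = K :=
    fun y hy hy' => hK y hy (hV _ hy')
  have t1 : r + 0 + r = 2 * r := by omega
  have t2 : r - 1 + 0 + r = 2 * r - 1 := by omega
  have t3 : r - 1 + 2 + (r - 1) = 2 * r := by omega
  have t4 : r + 0 + (r - 1) = 2 * r - 1 := by omega
  -- zeros
  have ha : ∀ z, x z = 0 → w z = 0 := by
    intro z hz
    obtain ⟨y, hy, hxy, hyz⟩ := P1 n x r (r - 1) 0 0 4 0 0 r 0 (n - 3 * r - 3) hx.1 (by omega)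
      (by omega) (by omega) z 2 (by
        intro P Q
        rw [hz, abs_zero]
        by_cases h : (0 : ℤ) = P ∧ (2 : ℤ) = Q
        · obtain ⟨rfl, rfl⟩ := h
          simp [pat] <;> omega
        · rw [if_neg h]
          exact Nat.zero_le _)
    rw [t1] at hy
    rw [t2] at hxy
    have hyz' : y z = 2 := by
      rw [hyz, hz]
      simp [sg]
    have k1 := hK' y hy hxy
    have k2 := hK' (flp z y) (c4 n _ _ y z hy) (by
      have e : x - flp z y = flp z (x - y) := by
        funext j
        simp only [Pi.sub_apply, flp]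
        by_cases hj : j = z
        · subst hj
          rw [if_pos rfl, if_pos rfl, hz]
          ring
        · rw [if_neg hj, if_neg hj]
      rw [e]
      exact c4 n _ _ _ z hxy)
    have k3 := PR4_sum1 z y (flp z y) w (fun i hi => by simp only [flp]; rw [if_neg hi])
    rw [k1, k2] at k3
    have k4 : flp z y z = -2 := by
      simp only [flp]
      rw [if_true, hyz']
    rw [k4, hyz'] at k3
    push_cast at k3
    linarith
  -- twos
  have hb : ∀ p q, |x p| = 2 → |x q| = 2 → (x p : ℝ) * w p = (x q : ℝ) * w q := by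
    intro p q hp hq
    by_cases hpq : p = q
    · rw [hpq]
    have hr2 : 2 ≤ r := by
      have : 1 < cnt x 2 := by
        unfold cnt
        rw [Finset.one_lt_card]
        exact ⟨p, by simp [hp], q, by simp [hq], hpq⟩
      omega
    obtain ⟨y, hy, hxy, hyp, hyq⟩ := P2 n x r (r - 1) 0 0 4 0 0 r 0 (n - 3 * r - 3) hx.1 (by omega)
      (by omega) (by omega) p q 2 0 hpq (by
        intro P Q
        rw [hp, hq]
        by_cases h1 : (2 : ℤ) = P ∧ (2 : ℤ) = Q
        · obtain ⟨rfl, rfl⟩ := h1
          simp [pat] <;> omega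
        · by_cases h2 : (2 : ℤ) = P ∧ (0 : ℤ) = Q
          · obtain ⟨rfl, rfl⟩ := h2
            simp [pat] <;> omega
          · rw [if_neg h1, if_neg h2]
            exact Nat.zero_le _)
    rw [t1] at hy
    rw [t2] at hxy
    rw [PR4_sg2 _ hp] at hyp
    rw [mul_zero] at hyq
    have hqp : q ≠ p := fun h => hpq h.symm
    set y' : Vec n := fun i => if i = p then 0 else if i = q then x q else y i with hy'
    have y'p : y' p = 0 := by simp only [hy']; rw [if_true]
    have y'q : y' q = x q := by simp only [hy']; rw [if_neg hqp, if_true]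
    have y'o : ∀ i, i ≠ p → i ≠ q → y' i = y i := by
      intro i h1 h2
      simp only [hy']
      rw [if_neg h1, if_neg h2]
    have m1 : y' ∈ TD n (2 * r) 0 := by
      refine PR4_perm p q y y' (fun i => ?_) hy
      by_cases h1 : i = p
      · rw [h1, Equiv.swap_apply_left, y'p, hyq]
      · by_cases h2 : i = q
        · rw [h2, Equiv.swap_apply_right, y'q, hyp, hp, hq]
        · rw [Equiv.swap_apply_of_ne_of_ne h1 h2, y'o i h1 h2]
    have m2 : x - y' ∈ TD n (2 * r - 1) 4 := by
      refine PR4_perm p q (x - y) (x - y') (fun i => ?_) hxy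
      by_cases h1 : i = p
      · rw [h1, Equiv.swap_apply_left, Pi.sub_apply, Pi.sub_apply, y'p, hyq, sub_zero, sub_zero,
          hp, hq]
      · by_cases h2 : i = q
        · rw [h2, Equiv.swap_apply_right, Pi.sub_apply, Pi.sub_apply, y'q, hyp, sub_self, sub_self]
        · rw [Equiv.swap_apply_of_ne_of_ne h1 h2, Pi.sub_apply, Pi.sub_apply, y'o i h1 h2]
    have k3 := PR4_sum2 p q hpq y y' w y'o
    rw [hK' y hy hxy, hK' y' m1 m2, y'p, y'q, hyp, hyq] at k3
    push_cast at k3
    linarith
  -- ones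
  have hc : ∀ p q, |x p| = 1 → |x q| = 1 → (x p : ℝ) * w p = (x q : ℝ) * w q := by
    intro p q hp hq
    by_cases hpq : p = q
    · rw [hpq]
    obtain ⟨y, hy, hxy, hyp, hyq⟩ := P2 n x (r - 1) r 0 0 2 2 0 (r - 1) 0 (n - 3 * r - 2) hx.1
      (by omega) (by omega) (by omega) p q 2 0 hpq (by
        intro P Q
        rw [hp, hq]
        by_cases h1 : (1 : ℤ) = P ∧ (2 : ℤ) = Q
        · obtain ⟨rfl, rfl⟩ := h1
          simp [pat] <;> omega
        · by_cases h2 : (1 : ℤ) = P ∧ (0 : ℤ) = Q
          · obtain ⟨rfl, rfl⟩ := h2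
            simp [pat] <;> omega
          · rw [if_neg h1, if_neg h2]
            exact Nat.zero_le _)
    rw [t3] at hy
    rw [t4] at hxy
    rw [PR4_sg1 _ hp] at hyp
    rw [mul_zero] at hyq
    have hqp : q ≠ p := fun h => hpq h.symm
    set y' : Vec n := fun i => if i = p then 0 else if i = q then 2 * x q else y i with hy'
    have y'p : y' p = 0 := by simp only [hy']; rw [if_true]
    have y'q : y' q = 2 * x q := by simp only [hy']; rw [if_neg hqp, if_true]
    have y'o : ∀ i, i ≠ p → i ≠ q → y' i = y i := by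
      intro i h1 h2
      simp only [hy']
      rw [if_neg h1, if_neg h2]
    have m1 : y' ∈ TD n (2 * r) 0 := by
      refine PR4_perm p q y y' (fun i => ?_) hy
      by_cases h1 : i = p
      · rw [h1, Equiv.swap_apply_left, y'p, hyq]
      · by_cases h2 : i = q
        · rw [h2, Equiv.swap_apply_right, y'q, hyp, abs_mul, abs_mul, hp, hq]
        · rw [Equiv.swap_apply_of_ne_of_ne h1 h2, y'o i h1 h2]
    have m2 : x - y' ∈ TD n (2 * r - 1) 4 := by
      refine PR4_perm p q (x - y) (x - y') (fun i => ?_) hxy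
      by_cases h1 : i = p
      · rw [h1, Equiv.swap_apply_left, Pi.sub_apply, Pi.sub_apply, y'p, hyq, sub_zero, sub_zero,
          hp, hq]
      · by_cases h2 : i = q
        · rw [h2, Equiv.swap_apply_right, Pi.sub_apply, Pi.sub_apply, y'q, hyp]
          have e1 : x q - 2 * x q = -(x q) := by ring
          have e2 : x p - 2 * x p = -(x p) := by ring
          rw [e1, e2, abs_neg, abs_neg, hp, hq]
        · rw [Equiv.swap_apply_of_ne_of_ne h1 h2, Pi.sub_apply, Pi.sub_apply, y'o i h1 h2]
    have k3 := PR4_sum2 p q hpq y y' w y'o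
    rw [hK' y hy hxy, hK' y' m1 m2, y'p, y'q, hyp, hyq] at k3
    push_cast at k3
    linarith
  -- a two and three ones
  obtain ⟨p0, hp0⟩ : ∃ p0, |x p0| = 2 := by
    have : 0 < cnt x 2 := by omega
    unfold cnt at this
    rw [Finset.card_pos] at this
    obtain ⟨p0, hp0⟩ := this
    exact ⟨p0, by simpa using hp0⟩
  obtain ⟨q1, q2, q3, hq1, hq2, hq3, h12, h13, h23⟩ : ∃ q1 q2 q3, |x q1| = 1 ∧ |x q2| = 1 ∧
      |x q3| = 1 ∧ q1 ≠ q2 ∧ q1 ≠ q3 ∧ q2 ≠ q3 := by
    have : 2 < cnt x 1 := by omega
    unfold cnt at this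
    rw [Finset.two_lt_card] at this
    obtain ⟨a, ha', b, hb', c, hc', h1, h2, h3⟩ := this
    exact ⟨a, b, c, by simpa using ha', by simpa using hb', by simpa using hc', h1, h2, h3⟩
  obtain ⟨α, hα⟩ : ∃ α, α = (x p0 : ℝ) * w p0 := ⟨_, rfl⟩
  obtain ⟨β, hβ⟩ : ∃ β, β = (x q1 : ℝ) * w q1 := ⟨_, rfl⟩
  have h2 : ∀ i, |x i| = 2 → (x i : ℝ) * w i = α := fun i hi => by rw [hα]; exact hb i p0 hi hp0
  have h1 : ∀ i, |x i| = 1 → (x i : ℝ) * w i = β := fun i hi => by rw [hβ]; exact hc i q1 hi hq1
  -- first equation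
  have E1 : (r : ℝ) * α = K := by
    obtain ⟨y, hy, hxy, y1, y2, y3⟩ := P3 n x r (r - 1) 0 0 4 0 0 r 0 (n - 3 * r - 3) hx.1
      (by omega) (by omega) (by omega) q1 q2 q3 0 0 0 h12 h13 h23 (by
        intro P Q
        rw [hq1, hq2, hq3]
        by_cases h1 : (1 : ℤ) = P ∧ (0 : ℤ) = Q
        · obtain ⟨rfl, rfl⟩ := h1
          simp [pat] <;> omega
        · rw [if_neg h1]
          exact Nat.zero_le _)
    rw [t1] at hy
    rw [t2] at hxy
    rw [mul_zero] at y1 y2 y3
    obtain ⟨a, ha1, ha2⟩ := PR4_key x y w α β hr hx hy hxy h2 h1 ha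
    have hB : (univ.filter fun i => |x i| = 1 ∧ y i ≠ 0).card + 3 ≤ 4 := by
      rw [← hx1]
      unfold cnt
      have e3 : ({q1, q2, q3} : Finset (Fin n)).card = 3 := by
        rw [Finset.card_eq_three]
        exact ⟨q1, q2, q3, h12, h13, h23, rfl⟩
      rw [← e3, ← Finset.card_union_of_disjoint]
      · apply Finset.card_le_card
        intro i hi
        simp only [mem_union, mem_filter, mem_univ, true_and, mem_insert, mem_singleton] at hi ⊢
        rcases hi with hi | rfl | rfl | rfl
        · exact hi.1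
        · exact hq1
        · exact hq2
        · exact hq3
      · rw [Finset.disjoint_left]
        intro i hi hi'
        simp only [mem_filter, mem_univ, true_and, mem_insert, mem_singleton] at hi hi'
        rcases hi' with rfl | rfl | rfl
        · exact hi.2 y1
        · exact hi.2 y2
        · exact hi.2 y3
    have hB0 : (univ.filter fun i => |x i| = 1 ∧ y i ≠ 0).card = 0 := by omega
    have har : a = r := by omega
    rw [hB0, har, hK' y hy hxy] at ha2
    rw [ha2]
    push_cast
    ring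
  -- second equation
  have E2 : 4 * β = α := by
    obtain ⟨y, hy, hxy, y1, y2⟩ := P2 n x (r - 1) r 0 0 2 2 0 (r - 1) 0 (n - 3 * r - 2) hx.1
      (by omega) (by omega) (by omega) q1 q2 2 0 h12 (by
        intro P Q
        rw [hq1, hq2]
        by_cases h1 : (1 : ℤ) = P ∧ (2 : ℤ) = Q
        · obtain ⟨rfl, rfl⟩ := h1
          simp [pat] <;> omega
        · by_cases h2 : (1 : ℤ) = P ∧ (0 : ℤ) = Q
          · obtain ⟨rfl, rfl⟩ := h2
            simp [pat] <;> omega
          · rw [if_neg h1, if_neg h2]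
            exact Nat.zero_le _)
    rw [t3] at hy
    rw [t4] at hxy
    rw [PR4_sg1 _ hq1] at y1
    obtain ⟨a, ha1, ha2⟩ := PR4_key x y w α β hr hx hy hxy h2 h1 ha
    have hB : 1 ≤ (univ.filter fun i => |x i| = 1 ∧ y i ≠ 0).card := by
      apply Finset.card_pos.2
      refine ⟨q1, ?_⟩
      simp only [mem_filter, mem_univ, true_and]
      refine ⟨hq1, fun h => ?_⟩
      rw [y1] at h
      have : x q1 = 0 := by omega
      rw [this] at hq1
      norm_num at hq1
    set b := (univ.filter fun i => |x i| = 1 ∧ y i ≠ 0).card with hb'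
    rw [hK' y hy hxy, ← E1] at ha2
    have hb1 : (1 : ℝ) ≤ b := by exact_mod_cast hB
    have hab : 2 * (a : ℝ) + b = 2 * r := by exact_mod_cast ha1
    have : (b : ℝ) * (4 * β - α) = 0 := by
      linear_combination (-2) * ha2 + (-α) * hab
    rcases mul_eq_zero.1 this with h | h
    · linarith
    · linarith
  -- the form at x
  have E3 : ∑ i, (x i : ℝ) * w i = (2 * r - 1 : ℝ) * α + 4 * β := by
    have e6 : ∀ i, (x i : ℝ) * w i = (if |x i| = 2 then α else 0) + (if |x i| = 1 then β else 0) := by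
      intro i
      by_cases c2 : |x i| = 2
      · rw [if_pos c2, if_neg (fun h => by rw [c2] at h; norm_num at h), h2 i c2, add_zero]
      · by_cases c1 : |x i| = 1
        · rw [if_neg c2, if_pos c1, h1 i c1, zero_add]
        · have c0 : x i = 0 := by
            have a1 := abs_nonneg (x i)
            have a2 := hx.1 i
            have : |x i| = 0 := by omega
            exact abs_eq_zero.1 this
          rw [if_neg c2, if_neg c1, ha i c0]
          ring
    rw [Finset.sum_congr rfl fun i _ => e6 i, Finset.sum_add_distrib, ← Finset.sum_filter,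
      ← Finset.sum_filter, Finset.sum_const, Finset.sum_const, nsmul_eq_mul, nsmul_eq_mul]
    have d1 : (univ.filter fun i => |x i| = 2).card = 2 * r - 1 := hx2
    have d2 : (univ.filter fun i => |x i| = 1).card = 4 := hx1
    rw [d1, d2, Nat.cast_sub (by omega)]
    push_cast
    ring
  rw [E3, E2, ← E1]
  ring

end Pool.Agent.SOL
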